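import Mathlib

set_option autoImplicit false

namespace Pool.Agent.Results.MP_bedf46_an

/-- The sites: two parallel rows, indexed by the integers and by the units 1, -1 of the integers. -/
abbrev Site : Type := ℤ × ℤˣ

/-- A configuration assigns 0 (false) or 1 (true) to every site. -/
abbrev Config : Type := Site → Bool

/-- The majority of three bits. -/
def maj (a b c : Bool) : Bool := (a && b) || (a && c) || (b && c)

/-- The 2-line voting. -/
def F (y : Config) : Config := fun v =>
  maj (y (v.1 - 2 * (v.2 : ℤ), v.2)) (y (v.1 - (v.2 : ℤ), v.2)) (y (v.1, -v.2))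

/-- Two configurations are finite perturbations of each other. -/
def FinitePert (s s' : Config) : Prop := {v : Site | s v ≠ s' v}.Finite

/-- The attractor property: the space-time array of every finite perturbation differs from that
of `s` at only finitely many space-time points. -/
def IsAttractor (s : Config) : Prop :=
  ∀ s' : Config, FinitePert s s' → {p : Site × ℕ | F^[p.2] s p.1 ≠ F^[p.2] s' p.1}.Finite

/-- The position of a site, measured in the direction of motion of its row. -/
def pos (v : Site) : ℤ := v.1 * (v.2 : ℤ)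

theorem maj_ne {a b c d : Bool} (h : maj a b c ≠ d) :
    (a ≠ d ∧ b ≠ d) ∨ (a ≠ d ∧ c ≠ d) ∨ (b ≠ d ∧ c ≠ d) := by
  revert h; revert a b c d; decide

theorem unit_cases (j : ℤˣ) : (j : ℤ) = 1 ∨ (j : ℤ) = -1 := by
  rcases Int.units_eq_one_or j with h | h <;> simp [h]

/-- Erosion: if `y` equals `c` at all sites with `m < |i| ≤ M`, then the sites that differ from `c`
drift in the direction of motion of their row inside an interval that shrinks. -/
theorem erode_aux (m M : ℕ) (c : Bool) (y : Config)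
    (hy : ∀ v : Site, m < v.1.natAbs → v.1.natAbs ≤ M → y v = c) :
    ∀ t : ℕ, ∀ v : Site, v.1.natAbs + 2 * t ≤ M → F^[t] y v ≠ c →
      ((t : ℤ) - m ≤ pos v ∧ 2 * ((t : ℤ) - m) ≤ pos v ∨
        (t : ℤ) ≤ m ∧ (t : ℤ) - m ≤ pos v) ∧ pos v ≤ m + t := by
  intro t
  induction t with
  | zero =>
    intro v hv hne
    have h1 : v.1.natAbs ≤ m := by
      by_contra hcon
      exact hne (hy v (by omega) (by omega))
    unfold pos
    rcases unit_cases v.2 with h | h <;> rw [h] <;> constructor <;> omega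
  | succ t ih =>
    intro v hv hne
    rw [Function.iterate_succ_apply'] at hne
    have hmaj := maj_ne hne
    have e1 : pos (v.1 - 2 * (v.2 : ℤ), v.2) = pos v - 2 := by
      unfold pos
      rcases unit_cases v.2 with h | h <;> simp only [h] <;> ring
    have e2 : pos (v.1 - (v.2 : ℤ), v.2) = pos v - 1 := by
      unfold pos
      rcases unit_cases v.2 with h | h <;> simp only [h] <;> ring
    have e3 : pos (v.1, -v.2) = - pos v := by
      unfold pos
      simp only [Units.val_neg]
      ring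
    have n1 : (v.1 - 2 * (v.2 : ℤ)).natAbs + 2 * t ≤ M := by
      rcases unit_cases v.2 with h | h <;> rw [h] <;> omega
    have n2 : (v.1 - (v.2 : ℤ)).natAbs + 2 * t ≤ M := by
      rcases unit_cases v.2 with h | h <;> rw [h] <;> omega
    have n3 : v.1.natAbs + 2 * t ≤ M := by omega
    have i1 := ih (v.1 - 2 * (v.2 : ℤ), v.2) n1
    have i2 := ih (v.1 - (v.2 : ℤ), v.2) n2
    have i3 := ih (v.1, -v.2) n3
    rw [e1] at i1
    rw [e2] at i2
    rw [e3] at i3
    push_cast
    rcases hmaj with ⟨ha, hb⟩ | ⟨ha, hb⟩ | ⟨ha, hb⟩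
    · have := i1 ha
      have := i2 hb
      omega
    · have := i1 ha
      have := i3 hb
      omega
    · have := i2 ha
      have := i3 hb
      omega

/-- Erosion of everything that differs from `c` inside `|i| ≤ m`, by time `3 m + 1`. -/
theorem erode (m M : ℕ) (c : Bool) (y : Config)
    (hy : ∀ v : Site, m < v.1.natAbs → v.1.natAbs ≤ M → y v = c)
    (t : ℕ) (ht : 3 * m + 1 ≤ t) (v : Site) (hv : v.1.natAbs + 2 * t ≤ M) :
    F^[t] y v = c := by
  by_contra hne
  have := erode_aux m M c y hy t v hv hne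
  omega

/-- Finite speed of propagation. -/
theorem speed (m : ℕ) (s s' : Config) (h : ∀ v : Site, m < v.1.natAbs → s v = s' v) :
    ∀ t : ℕ, ∀ v : Site, m + 2 * t < v.1.natAbs → F^[t] s v = F^[t] s' v := by
  intro t
  induction t with
  | zero => intro v hv; exact h v (by omega)
  | succ t ih =>
    intro v hv
    rw [Function.iterate_succ_apply', Function.iterate_succ_apply']
    have n1 : m + 2 * t < (v.1 - 2 * (v.2 : ℤ)).natAbs := by
      rcases unit_cases v.2 with h | h <;> rw [h] <;> omega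
    have n2 : m + 2 * t < (v.1 - (v.2 : ℤ)).natAbs := by
      rcases unit_cases v.2 with h | h <;> rw [h] <;> omega
    have n3 : m + 2 * t < v.1.natAbs := by omega
    show maj _ _ _ = maj _ _ _
    rw [ih (v.1 - 2 * (v.2 : ℤ), v.2) n1, ih (v.1 - (v.2 : ℤ), v.2) n2, ih (v.1, -v.2) n3]

theorem finite_box (B : ℕ) : {v : Site | v.1.natAbs ≤ B}.Finite := by
  have h : {v : Site | v.1.natAbs ≤ B} ⊆ (Set.Icc (-(B : ℤ)) B) ×ˢ (Set.univ : Set ℤˣ) := by
    intro v hv
    simp only [Set.mem_ofPred_eq] at hv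
    refine ⟨⟨by omega, by omega⟩, Set.mem_univ _⟩
  exact ((Set.finite_Icc _ _).prod Set.finite_univ).subset h

theorem bounded_of_finite {D : Set Site} (hD : D.Finite) : ∃ N : ℕ, ∀ v ∈ D, v.1.natAbs ≤ N := by
  obtain ⟨N, hN⟩ := (hD.image (fun v : Site => v.1.natAbs)).bddAbove
  exact ⟨N, fun v hv => hN ⟨v, hv, rfl⟩⟩

/-- The value of the configuration at scale `k`. -/
def val (k : ℕ) : Bool := decide (k % 2 = 1)

/-- Nested blocks of zeroes and ones with geometrically growing lengths. -/
def s₀ : Config := fun v => val (Nat.clog 20 v.1.natAbs)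

theorem s₀_scale (k : ℕ) (v : Site) (h1 : 20 ^ k < v.1.natAbs) (h2 : v.1.natAbs ≤ 20 ^ (k + 1)) :
    s₀ v = val (k + 1) := by
  have : Nat.clog 20 v.1.natAbs = k + 1 := by
    apply le_antisymm
    · exact (Nat.clog_le_iff_le_pow (by norm_num)).2 h2
    · exact (Nat.lt_clog_iff_pow_lt (by norm_num)).2 h1
  unfold s₀
  rw [this]

theorem one_le_pow20 (k : ℕ) : 1 ≤ 20 ^ k := Nat.one_le_pow _ _ (by norm_num)

theorem s₀_at (k : ℕ) (s' : Config) (h : ∀ v : Site, 20 ^ k < v.1.natAbs → s₀ v = s' v) (v : Site)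
    (hv : v.1.natAbs + 2 * (3 * 20 ^ k + 1) ≤ 20 ^ (k + 1)) :
    F^[3 * 20 ^ k + 1] s' v = val (k + 1) :=
  erode (20 ^ k) (20 ^ (k + 1)) (val (k + 1)) s'
    (fun w h1 h2 => by rw [← h w h1]; exact s₀_scale k w h1 h2) _ le_rfl v hv

theorem attractor : IsAttractor s₀ := by
  intro s' hs'
  obtain ⟨N, hN⟩ := bounded_of_finite hs'
  have hNp : N < 20 ^ N := Nat.lt_pow_self (by norm_num)
  have hagree : ∀ v : Site, 20 ^ N < v.1.natAbs → s₀ v = s' v := by
    intro v hv
    by_contra hne
    have := hN v hne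
    omega
  set t0 : ℕ := 3 * 20 ^ N + 1 with ht0
  have hp : 20 ^ (N + 1) = 20 * 20 ^ N := by ring
  have h1 := one_le_pow20 N
  have heq : F^[t0] s₀ = F^[t0] s' := by
    funext v
    by_cases hv : v.1.natAbs + 2 * t0 ≤ 20 ^ (N + 1)
    · rw [s₀_at N s' hagree v hv, s₀_at N s₀ (fun _ _ => rfl) v hv]
    · exact speed (20 ^ N) s₀ s' hagree t0 v (by omega)
  have hlate : ∀ t : ℕ, t0 ≤ t → F^[t] s₀ = F^[t] s' := by
    intro t ht
    obtain ⟨r, rfl⟩ := Nat.exists_eq_add_of_le' ht
    rw [Function.iterate_add_apply F r t0 s₀, Function.iterate_add_apply F r t0 s', heq]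
  have hsub : {p : Site × ℕ | F^[p.2] s₀ p.1 ≠ F^[p.2] s' p.1} ⊆
      {v : Site | v.1.natAbs ≤ 20 ^ N + 2 * t0} ×ˢ (Set.Iio t0) := by
    rintro ⟨v, t⟩ hp
    simp only [Set.mem_ofPred_eq] at hp
    have ht : t < t0 := by
      by_contra hcon
      exact hp (by rw [hlate t (by omega)])
    refine ⟨?_, ht⟩
    simp only [Set.mem_ofPred_eq]
    by_contra hcon
    exact hp (speed (20 ^ N) s₀ s' hagree t v (by omega))
  exact ((finite_box _).prod (Set.finite_Iio _)).subset hsub

theorem often (b : Bool) (v : Site) (T : ℕ) : ∃ t : ℕ, T ≤ t ∧ F^[t] s₀ v = b := by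
  obtain ⟨k, hk, hval⟩ : ∃ k : ℕ, v.1.natAbs + T ≤ k ∧ val (k + 1) = b := by
    cases b with
    | false =>
      refine ⟨2 * (v.1.natAbs + T) + 1, by omega, ?_⟩
      unfold val
      simp only [decide_eq_false_iff_not]
      omega
    | true =>
      refine ⟨2 * (v.1.natAbs + T), by omega, ?_⟩
      unfold val
      simp only [decide_eq_true_eq]
      omega
  have hkp : k < 20 ^ k := Nat.lt_pow_self (by norm_num)
  refine ⟨3 * 20 ^ k + 1, by omega, ?_⟩
  rw [← hval]
  refine s₀_at k s₀ (fun _ _ => rfl) v ?_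
  have hp : 20 ^ (k + 1) = 20 * 20 ^ k := by ring
  have h1 := one_le_pow20 k
  omega

theorem not_bunch (b : Bool) (t : ℕ) : ¬ FinitePert (F^[t] s₀) (fun _ => b) := by
  intro hfin
  obtain ⟨N, hN⟩ := bounded_of_finite hfin
  obtain ⟨r, hr, hval⟩ := often (!b) (0, 1) (t + (3 * N + 1))
  obtain ⟨u, rfl⟩ := Nat.exists_eq_add_of_le' (le_trans (Nat.le_add_right t (3 * N + 1)) hr)
  rw [Function.iterate_add_apply] at hval
  have := erode N (2 * u) b (F^[t] s₀)
    (fun w h1 _ => by
      by_contra hne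
      have := hN w hne
      omega) u (by omega) (0, 1) (by simp)
  rw [this] at hval
  cases b <;> simp at hval

/-- The 2-line voting has an attractor `s` outside the bunches of the two constant configurations;
moreover no iterate of `s` lies in one of these bunches, and along the trajectory of `s` every site
takes each of the values 0 and 1 at arbitrarily late times. -/
theorem NonconvergentAttractor.result :
    ∃ s : Config, IsAttractor s ∧
      (¬ FinitePert s (fun _ => false) ∧ ¬ FinitePert s (fun _ => true)) ∧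
      (∀ t : ℕ, ¬ FinitePert (F^[t] s) (fun _ => false) ∧ ¬ FinitePert (F^[t] s) (fun _ => true)) ∧
      (∀ v : Site, ∀ T : ℕ, (∃ t ≥ T, F^[t] s v = false) ∧ (∃ t ≥ T, F^[t] s v = true)) :=
  ⟨s₀, attractor, ⟨not_bunch false 0, not_bunch true 0⟩,
    fun t => ⟨not_bunch false t, not_bunch true t⟩,
    fun v T => ⟨often false v T, often true v T⟩⟩

end Pool.Agent.Results.MP_bedf46_an
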